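import Pool.Agent.CSK.AltD

/-!
# MP_7c7a1d_al: class sizes of powers of alternating groups

Let `m ≥ 5`, `m ≠ 6`, let `S` be the alternating group of degree `m`, let `r ≤ m` be a prime and
let `G` be a finite group, with or without centre, such that every class size of `G` divides one of
`S ^ n` and every class size of `S ^ n` divides one of `G` (for example `N(G) = N(S ^ n)`). If the
sections of a series of normal subgroups of `G` have order prime to `r`, or are powers of `S`, or
of nonabelian simple groups which are large over `S` with no larger `r`-part, then `G / Z(G)` is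
isomorphic to `S ^ n`.
-/

set_option autoImplicit false

namespace Pool.Agent.Results.MP_7c7a1d_al.AlternatingPowers

open Pool.Agent.CSK

/-- Powers of the alternating group of degree `m ≥ 5`, `m ≠ 6`, are recognised by their class sizes
among the finite groups with suitable composition factors at one prime `r ≤ m`. -/
theorem result {m : ℕ} (hm : 5 ≤ m) (hm6 : m ≠ 6) {r : ℕ} (hr : r.Prime) (hrm : r ≤ m)
    (n : ℕ) {G : Type*} [Group G] [Finite G]
    (hN : ∀ g : G, ∃ h : (Fin n → alternatingGroup (Fin m)), Nat.card {x : G // IsConj g x} ∣
      Nat.card {x : (Fin n → alternatingGroup (Fin m)) // IsConj h x})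
    (hN' : ∀ h : (Fin n → alternatingGroup (Fin m)), ∃ g : G,
      Nat.card {x : (Fin n → alternatingGroup (Fin m)) // IsConj h x} ∣
        Nat.card {x : G // IsConj g x})
    (hG : MixedSeries (alternatingGroup (Fin m)) G r) :
    ∃ F : G →* (Fin n → alternatingGroup (Fin m)),
      Function.Surjective F ∧ F.ker = Subgroup.center G :=
  Pool.Agent.CSK.Alt.alt_powers hm hm6 hr hrm n hN hN' hG

end Pool.Agent.Results.MP_7c7a1d_al.AlternatingPowers
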