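import Pool.Agent.CSK.Kernel

/-!
# MP_7c7a1d_al: class sizes and groups with a direct product of simple groups as a quotient

Let `H` be a finite direct product of nonabelian finite simple groups and `G` a finite group, with
or without centre, each of whose conjugacy class sizes divides a conjugacy class size of `H` (for
example `N(G) = N(H)`). If `M` is a subnormal subgroup of `G` and `f : M → H` is a surjective
homomorphism, then the kernel of `f` is the centre of `M`. For `M = G` and `Z(G) = 1` this says
that `f` is an isomorphism.
-/

set_option autoImplicit false

namespace Pool.Agent.Results.MP_7c7a1d_al.KernelIsCentre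

/-- Let every class size of the finite group `G` divide a class size of `H = ∏ i, S i`, where the
`S i` are finitely many nonabelian finite simple groups. Then the kernel of every surjective
homomorphism from a subnormal subgroup `M` of `G` onto `H` is the centre of `M`. -/
theorem result {ι : Type*} [Finite ι] {S : ι → Type*} [∀ i, Group (S i)] [∀ i, Finite (S i)]
    [∀ i, IsSimpleGroup (S i)] (hS : ∀ i, ∃ a b : S i, a * b ≠ b * a) {G : Type*} [Group G]
    [Finite G] (hN : ∀ g : G, ∃ h : (∀ i, S i),
      Nat.card {x : G // IsConj g x} ∣ Nat.card {x : (∀ i, S i) // IsConj h x})
    (M : Subgroup G) (hM : M.IsSubnormal) (f : M →* (∀ i, S i)) (hf : Function.Surjective f) :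
    f.ker = Subgroup.center M :=
  Pool.Agent.CSK.main hS hN M hM f hf

end Pool.Agent.Results.MP_7c7a1d_al.KernelIsCentre
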