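import Pool.Agent.CSK.Mixed

/-!
# MP_7c7a1d_al: class sizes of a power of a simple group, one prime, other composition factors

Let `S` be a finite nonabelian simple group which satisfies `SmallOuter` (for example with trivial
outer automorphism group), let `r` be a prime divisor of the order of `S` such that some element of
`S` has a centraliser of order prime to `r`, and let `G` be a finite group, with or without centre,
such that every class size of `G` divides one of `S ^ n` and every class size of `S ^ n` divides one
of `G` (for example `N(G) = N(S ^ n)`). If every section of a series of normal subgroups of `G` has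
order prime to `r`, or is a power of `S`, or is a power of a nonabelian simple group `T` which is
large over `S` and whose order has no larger `r`-part, then `G / Z(G)` is isomorphic to `S ^ n`.
-/

set_option autoImplicit false

namespace Pool.Agent.Results.MP_7c7a1d_al.OtherFactors

open Pool.Agent.CSK

/-- If the class sizes of the finite group `G` and those of `S ^ n` have the same maximal elements
for divisibility and, for one prime `r`, the sections of a series of normal subgroups of `G` are
prime to `r`, powers of `S`, or powers of simple groups which are large over `S` with no larger
`r`-part, then `S ^ n` is the quotient of `G` by its centre. -/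
theorem result {S : Type*} [Group S] [Finite S] [IsSimpleGroup S]
    (hS : ∃ a b : S, a * b ≠ b * a) (hP : SmallOuter S) {r : ℕ} (hr : r.Prime)
    (hrS : r ∣ Nat.card S) (hx : ∃ x : S, ¬ r ∣ Nat.card (Subgroup.centralizer {x}))
    (n : ℕ) {G : Type*} [Group G] [Finite G]
    (hN : ∀ g : G, ∃ h : (Fin n → S),
      Nat.card {x : G // IsConj g x} ∣ Nat.card {x : (Fin n → S) // IsConj h x})
    (hN' : ∀ h : (Fin n → S), ∃ g : G,
      Nat.card {x : (Fin n → S) // IsConj h x} ∣ Nat.card {x : G // IsConj g x})
    (hG : MixedSeries S G r) :
    ∃ F : G →* (Fin n → S), Function.Surjective F ∧ F.ker = Subgroup.center G :=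
  Pool.Agent.CSK.mixed hS hP hr hrS hx n hN hN' hG

end Pool.Agent.Results.MP_7c7a1d_al.OtherFactors
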